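import Pool.Agent.Helper1.RK.StE

set_option autoImplicit false

namespace Pool.Agent.Helper42.RK

open Pool.Agent.Helper1.RK

theorem pPAI : StPAI := by
  intro F K _ _ _ _ I X pd deg lc J rho a b w hV hS i j hij
  have R : ∀ z z', z ∉ J i → z ∉ J j → z ≠ rho i → z ≠ rho j → z' ∉ J i → z' ∉ J j →
      pd z' (w i) * pd z (w j) = pd z' (w j) * pd z (w i) := by
    intro z z' hzi hzj h1 h2 hz'i hz'j
    have hfi : X (rho i) ^ 3 + a i * X (rho i) + b i ≠ 0 :=
      (hV.cub (rho i) (a i) (b i) (hS.pda i _ (hS.rhoJ i i)) (hS.pdb i _ (hS.rhoJ i i))).1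
    have hfj : X (rho j) ^ 3 + a j * X (rho j) + b j ≠ 0 :=
      (hV.cub (rho j) (a j) (b j) (hS.pda j _ (hS.rhoJ j j)) (hS.pdb j _ (hS.rhoJ j j))).1
    have hd : ∀ k, z ∉ J k → z ≠ rho k → pd z (X (rho k) ^ 3 + a k * X (rho k) + b k) = 0 := by
      intro k hk hk'
      rw [map_add, map_add, Derivation.leibniz_pow, Derivation.leibniz, hV.pd_ne z (rho k) hk',
        hS.pda k z hk, hS.pdb k z hk]
      simp
    refine hV.two z z' (a i) (b i) (a j) (b j)
      ((X (rho i) ^ 3 + a i * X (rho i) + b i) * (X (rho j) ^ 3 + a j * X (rho j) + b j))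
      (w i) (w j) (hS.pda i z hzi) (hS.pdb i z hzi) (hS.pda j z hzj) (hS.pdb j z hzj)
      (hS.pda i z' hz'i) (hS.pdb i z' hz'i) (hS.pda j z' hz'j) (hS.pdb j z' hz'j)
      (hS.disc i) (hS.disc j) ?_ (mul_ne_zero hfi hfj) (hS.ne i) (hS.ne j) ?_
    · rw [Derivation.leibniz, hd i hzi h1, hd j hzj h2]
      simp
    · have h := hS.sq i j hij
      have e : (X (rho i) ^ 3 + a i * X (rho i) + b i) * (X (rho j) ^ 3 + a j * X (rho j) + b j) *
          ((w i ^ 3 + a i * w i + b i) * (w j ^ 3 + a j * w j + b j)) =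
          (X (rho i) ^ 3 + a i * X (rho i) + b i) * (w i ^ 3 + a i * w i + b i) *
          ((X (rho j) ^ 3 + a j * X (rho j) + b j) * (w j ^ 3 + a j * w j + b j)) := by ring
      rw [e]
      exact h
  refine ⟨R, ?_⟩
  intro z z' hzi hzj hz'i hz'j hne
  have hz : z = rho i ∨ z = rho j := by
    by_contra hc
    rw [not_or] at hc
    apply hne
    have := R z z' hzi hzj hc.1 hc.2 hz'i hz'j
    rw [this]
    ring
  have hz' : z' = rho i ∨ z' = rho j := by
    by_contra hc
    rw [not_or] at hc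
    apply hne
    have := R z' z hz'i hz'j hc.1 hc.2 hzi hzj
    rw [this]
    ring
  have hD : pd (rho i) (w i) * pd (rho j) (w j) ≠ pd (rho j) (w i) * pd (rho i) (w j) := by
    rcases hz with hz | hz <;> rcases hz' with hz' | hz'
    · subst hz; subst hz'; exact absurd rfl hne
    · rw [hz, hz'] at hne; exact hne
    · rw [hz, hz'] at hne; exact fun h => hne h.symm
    · rw [hz, hz'] at hne; exact absurd rfl hne
  refine ⟨hD, ?_⟩
  intro y hyi hyj hy1 hy2
  have e1 := R y (rho i) hyi hyj hy1 hy2 (hS.rhoJ i i) (hS.rhoJ i j)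
  have e2 := R y (rho j) hyi hyj hy1 hy2 (hS.rhoJ j i) (hS.rhoJ j j)
  have hu : pd y (w i) = 0 := by
    have h : (pd (rho i) (w i) * pd (rho j) (w j) - pd (rho j) (w i) * pd (rho i) (w j)) *
        pd y (w i) = 0 := by
      linear_combination (- pd (rho i) (w i)) * e2 + pd (rho j) (w i) * e1
    rcases mul_eq_zero.1 h with h | h
    · exact absurd (sub_eq_zero.1 h) hD
    · exact h
  refine ⟨hu, ?_⟩
  rw [hu, mul_zero] at e1 e2
  by_contra hv
  have h1 := (mul_eq_zero.1 e1).resolve_right hv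
  have h2 := (mul_eq_zero.1 e2).resolve_right hv
  apply hD
  rw [h1, h2]
  ring

end Pool.Agent.Helper42.RK
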