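import Mathlib
import Pool.Agent.Helper43.RK.St

/-!
# Project RK, module RT
-/

set_option autoImplicit false

namespace Pool.Agent.Helper42.RK

open Pool.Agent.Helper43.RK

theorem cj {G : Type} [Group G] {n : G} (hn : n * n = 1) (x y : G) :
    (n * x * n) * (n * y * n) = n * (x * y) * n := by
  calc (n * x * n) * (n * y * n) = n * x * (n * n) * y * n := by group
    _ = n * (x * y) * n := by rw [hn]; group

theorem cj2 {G : Type} [Group G] {n : G} (hn : n * n = 1) (x : G) :
    n * (n * x * n) * n = x := by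
  calc n * (n * x * n) * n = (n * n) * x * (n * n) := by group
    _ = x := by rw [hn]; group

theorem hRT : StRT := by
  intro hRN R _ G _ D hz l hl
  obtain ⟨hn2, hn, hny, hn1, -, -, -, -⟩ := hRN R G D hz
  have hy1 : D.b 1 = D.n * D.a (D.y : R) * D.n := hny.symm
  have hc1 : D.c = D.n * D.a 1 * D.n := hn1.symm
  have ha1 : D.a 1 = D.n * D.c * D.n := by rw [hc1, cj2 hn2]
  have hp := D.aa (D.y : R)
  have hb := D.bb 1
  have hcl : D.c * D.a l = D.a l * D.c := by
    have h := D.hac l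
    rw [hl] at h
    calc D.c * D.a l = D.c * D.a l * (D.c * D.c) := by rw [D.c2, mul_one]
      _ = (D.c * D.a l * D.c) * D.c := by group
      _ = D.a l * D.c := by rw [h]
  have htau : ∀ m, D.tau m = D.n * D.a m * D.n := fun m => rfl
  have htau2 : ∀ m, D.tau m = D.a (D.y : R) * (D.b 1 * D.a m * D.b 1) * D.a (D.y : R) := by
    intro m
    have hnd : D.n = D.a (D.y : R) * D.b 1 * D.a (D.y : R) := rfl
    have hpm : D.a (D.y : R) * D.a m * D.a (D.y : R) = D.a m := by
      rw [D.acomm, mul_assoc, hp, mul_one]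
    rw [htau, hnd]
    calc D.a (D.y : R) * D.b 1 * D.a (D.y : R) * D.a m * (D.a (D.y : R) * D.b 1 * D.a (D.y : R))
        = D.a (D.y : R) * D.b 1 * (D.a (D.y : R) * D.a m * D.a (D.y : R)) * D.b 1 * D.a (D.y : R) := by
          group
      _ = D.a (D.y : R) * (D.b 1 * D.a m * D.b 1) * D.a (D.y : R) := by rw [hpm]; group
  refine ⟨?_, ?_, ?_, ?_, ?_, ?_, ?_, ?_⟩
  · rw [htau, cj hn2, D.aa]
    rw [mul_one, hn2]
  · rw [htau, ha1, cj hn2, cj hn2, hcl]
  · rw [htau, hc1, cj hn2, cj hn2, D.acomm]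
  · rw [htau, hy1, cj hn2, cj hn2, D.acomm]
  · intro m
    rw [htau, htau, htau, cj hn2, D.a_add]
  · rw [htau2]
    calc D.a (D.y : R) * (D.a l * D.b 1 * D.a l * D.b 1) * D.a (D.y : R)
        = (D.a (D.y : R) * D.a l) * (D.b 1 * D.a l * D.b 1) * D.a (D.y : R) := by group
      _ = (D.a l * D.a (D.y : R)) * (D.b 1 * D.a l * D.b 1) * D.a (D.y : R) := by rw [D.acomm]
      _ = D.a l * (D.a (D.y : R) * (D.b 1 * D.a l * D.b 1) * D.a (D.y : R)) := by group
  · rw [htau2]
    rw [cj2 hp]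
    calc D.b 1 * D.a l * D.b 1 = (D.a l * D.a l) * (D.b 1 * D.a l * D.b 1) := by rw [D.aa, one_mul]
      _ = D.a l * (D.a l * D.b 1 * D.a l * D.b 1) := by group
  · intro hbl
    refine ⟨?_, ?_⟩
    · have h1 : D.c * D.a (l * (D.y : R)) * D.c * D.a (l * (D.y : R)) = D.a l := by
        rw [D.hac, ← D.a_add]
        congr 1
        rw [map_mul, hl, D.bary]
        have h := D.hy
        linear_combination l * h
      calc D.a 1 * D.b l * D.a 1 * D.b l
          = (D.n * D.c * D.n) * (D.n * D.a (l * (D.y : R)) * D.n) * (D.n * D.c * D.n) *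
            (D.n * D.a (l * (D.y : R)) * D.n) := by rw [← ha1, hbl]
        _ = D.n * (D.c * D.a (l * (D.y : R)) * D.c * D.a (l * (D.y : R))) * D.n := by
            rw [cj hn2, cj hn2, cj hn2]
        _ = D.tau l := by rw [h1]; rfl
    · intro m
      rw [htau, ← hbl, cj hn2, cj hn2, D.acomm]

end Pool.Agent.Helper42.RK
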